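import Pool.Agent.Helper96.SH.Sb
import Pool.Agent.Helper13.LT.Psb
import Pool.Agent.Helper13.LT.Psd

/-!
Entire functions of several variables are everywhere convergent power series; the coefficients of a
member of a class of entire functions closed under the partial derivatives, with algebraic values
at `0`, are algebraic.
-/

set_option autoImplicit false

open Complex Metric Set Filter
open scoped Real Topology NNReal ENNReal

namespace Pool.Agent.Helper32.SH

open Pool.Agent.Helper96.SH Pool.Agent.Helper13.LT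

variable {ι : Type} [Fintype ι] [DecidableEq ι]

/-- a homogeneous form that vanishes at all points has zero coefficients -/
theorem form_zero {k : ℕ} {a : (ι → ℕ) → ℂ}
    (h : ∀ y : ι → ℂ, ∑ m ∈ Finset.piAntidiag (Finset.univ : Finset ι) k,
      (∏ i, y i ^ m i) • a m = 0) {m : ι → ℕ} (hm : ∑ i, m i = k) : a m = 0 := by
  classical
  set P : MvPolynomial ι ℂ := ∑ m ∈ Finset.piAntidiag (Finset.univ : Finset ι) k,
    MvPolynomial.monomial (Finsupp.equivFunOnFinite.symm m) (a m) with hP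
  have h1 : P = 0 := by
    refine MvPolynomial.funext fun y => ?_
    rw [hP, map_sum, map_zero, ← h y]
    refine Finset.sum_congr rfl fun m _ => ?_
    rw [MvPolynomial.eval_monomial, smul_eq_mul, mul_comm]
    congr 1
    rw [Finsupp.prod_fintype _ _ fun i => pow_zero _]
    rfl
  have h2 : MvPolynomial.coeff (Finsupp.equivFunOnFinite.symm m) P = a m := by
    rw [hP, MvPolynomial.coeff_sum, Finset.sum_eq_single m]
    · rw [MvPolynomial.coeff_monomial, if_pos rfl]
    · intro m' _ hne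
      rw [MvPolynomial.coeff_monomial, if_neg]
      exact fun h3 => hne (Finsupp.equivFunOnFinite.symm.injective h3)
    · intro h3
      exact absurd (Finset.mem_piAntidiag.mpr ⟨hm, fun i _ => Finset.mem_univ i⟩) h3
  rw [← h2, h1, MvPolynomial.coeff_zero]

/-- local uniqueness of the coefficients -/
theorem local_unique {c d : (ι → ℕ) → ℂ} {f : (ι → ℂ) → ℂ} {r M M' : ℝ} (hr : 0 < r)
    (hc : ∀ m, ‖c m‖ ≤ M / r ^ (∑ i, m i)) (hd : ∀ m, ‖d m‖ ≤ M' / r ^ (∑ i, m i))
    (h1 : ∀ z, ‖z‖ < r → HasSum (fun m : ι → ℕ => (∏ i, z i ^ m i) • c m) (f z))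
    (h2 : ∀ z, ‖z‖ < r → HasSum (fun m : ι → ℕ => (∏ i, z i ^ m i) • d m) (f z)) : c = d := by
  have h3 : HasFPowerSeriesOnBall (fun _ : ι → ℂ => (0 : ℂ)) (fms fun m => c m - d m) 0
      (ENNReal.ofNNReal ⟨r, hr.le⟩) := by
    refine hasFPowerSeriesOnBall_of_coef (r := ⟨r, hr.le⟩) (M := M + M') (by exact_mod_cast hr)
      (fun m => ?_) fun z hz => ?_
    · refine (norm_sub_le _ _).trans ((add_le_add (hc m) (hd m)).trans (le_of_eq ?_))
      rw [add_div]
      rfl
    · have h4 := (h1 z hz).sub (h2 z hz)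
      rw [sub_self] at h4
      simpa only [smul_sub] using h4
  funext m
  refine sub_eq_zero.1 (form_zero (a := fun m => c m - d m) (k := ∑ i, m i) (fun y => ?_) rfl)
  have h5 := h3.hasFPowerSeriesAt.apply_eq_zero (∑ i, m i) y
  rw [← h5, fms, sum_apply]
  refine Finset.sum_congr rfl fun m' hm' => ?_
  rw [ContinuousMultilinearMap.smulRight_apply, mon_apply (Finset.mem_piAntidiag.mp hm').1]

/-- an entire function is separately holomorphic on every polydisc -/
theorem sep_of_differentiable {f : (ι → ℂ) → ℂ} (hf : Differentiable ℂ f) (r : ℝ) :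
    Sep (fun z => f (0 + z)) r := by
  simp only [zero_add]
  refine ⟨hf.continuous.continuousOn, fun z _ j => ?_⟩
  refine Differentiable.differentiableOn ?_
  intro t
  exact (hf _).comp t (hasDerivAt_update z j t).differentiableAt

/-- an entire function of several variables is an everywhere convergent power series -/
theorem entire_PS {f : (ι → ℂ) → ℂ} (hf : Differentiable ℂ f) : ∃ c, PS c f := by
  have key : ∀ r : ℝ, 0 < r → ∃ c : (ι → ℕ) → ℂ, (∃ M, ∀ m, ‖c m‖ ≤ M / r ^ (∑ i, m i)) ∧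
      ∀ z, ‖z‖ < r → HasSum (fun m : ι → ℕ => (∏ i, z i ^ m i) • c m) (f z) := by
    intro r hr
    obtain ⟨M, hM⟩ : ∃ M, ∀ z ∈ closedBall (0 : ι → ℂ) r, ‖f z‖ ≤ M :=
      (isCompact_closedBall 0 r).exists_bound_of_continuousOn hf.continuous.continuousOn
    obtain ⟨c, hc, hs⟩ := osgood (x := (0 : ι → ℂ)) hr (sep_of_differentiable hf r) hM
    refine ⟨c, ⟨M, hc⟩, fun z hz => ?_⟩
    have := hs z hz
    rwa [zero_add] at this
  obtain ⟨c, ⟨M, hc⟩, hs⟩ := key 1 one_pos
  refine ⟨c, fun z => ?_⟩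
  obtain ⟨c', ⟨M', hc'⟩, hs'⟩ := key (‖z‖ + 1) (by positivity)
  have hM' : 0 ≤ M' := by
    have := (norm_nonneg _).trans (hc' 0)
    simpa using this
  have h1 : c = c' := by
    refine local_unique (M := M) (M' := M') one_pos hc (fun m => ?_) hs fun w hw => hs' w ?_
    · refine (hc' m).trans ?_
      rw [one_pow, div_one]
      exact div_le_self hM' (one_le_pow₀ (by linarith [norm_nonneg z]))
    · linarith [norm_nonneg z]
  have h2 := hs' z (by linarith)
  rw [← h1] at h2
  refine h2.congr_fun ?_ |> id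
  intro m
  rw [smul_eq_mul, mul_comm]

/-- the derivative of the monomial -/
noncomputable def dmono (c : (ι → ℕ) → ℂ) (m : ι → ℕ) (z : ι → ℂ) : (ι → ℂ) →L[ℂ] ℂ :=
  c m • ∑ u, (∏ v ∈ Finset.univ.erase u, z v ^ m v) •
    (((m u : ℂ) * z u ^ (m u - 1)) • (ContinuousLinearMap.proj u : (ι → ℂ) →L[ℂ] ℂ))

theorem hasFDerivAt_mono (c : (ι → ℕ) → ℂ) (m : ι → ℕ) (z : ι → ℂ) :
    HasFDerivAt (fun z : ι → ℂ => c m * ∏ u, z u ^ m u) (dmono c m z) z := by
  have h1 : ∀ u ∈ (Finset.univ : Finset ι), HasFDerivAt (fun z : ι → ℂ => z u ^ m u)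
      (((m u : ℂ) * z u ^ (m u - 1)) • (ContinuousLinearMap.proj u : (ι → ℂ) →L[ℂ] ℂ)) z := by
    intro u _
    have h := (hasDerivAt_pow (m u) (z u)).comp_hasFDerivAt z
      (ContinuousLinearMap.hasFDerivAt (ContinuousLinearMap.proj u : (ι → ℂ) →L[ℂ] ℂ))
    exact h
  have h2 := HasFDerivAt.finsetProd h1
  have h3 := h2.const_mul (c m)
  unfold dmono
  exact h3

theorem norm_dmono_le (c : (ι → ℕ) → ℂ) (m : ι → ℕ) (z : ι → ℂ) {R : ℝ} (hR : 1 ≤ R)
    (hz : ∀ u, ‖z u‖ ≤ R) :
    ‖dmono c m z‖ ≤ ‖c m‖ * (2 * R) ^ (∑ u, m u) := by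
  have hR0 : 0 ≤ R := le_trans zero_le_one hR
  unfold dmono
  rw [norm_smul]
  refine mul_le_mul_of_nonneg_left ?_ (norm_nonneg _)
  refine le_trans (norm_sum_le _ _) ?_
  have h1 : ∀ u ∈ (Finset.univ : Finset ι), ‖(∏ v ∈ Finset.univ.erase u, z v ^ m v) •
      (((m u : ℂ) * z u ^ (m u - 1)) • (ContinuousLinearMap.proj u : (ι → ℂ) →L[ℂ] ℂ))‖
      ≤ (m u : ℝ) * R ^ (∑ u, m u) := by
    intro u _
    rw [norm_smul, norm_smul, norm_prod, norm_mul, norm_pow, Complex.norm_natCast]
    have hp : ‖(ContinuousLinearMap.proj u : (ι → ℂ) →L[ℂ] ℂ)‖ ≤ 1 := by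
      refine ContinuousLinearMap.opNorm_le_bound _ zero_le_one fun w => ?_
      simpa using norm_le_pi_norm w u
    have ha : ∏ v ∈ Finset.univ.erase u, ‖z v ^ m v‖ ≤ R ^ (∑ v ∈ Finset.univ.erase u, m v) := by
      rw [← Finset.prod_pow_eq_pow_sum]
      refine Finset.prod_le_prod (fun v _ => norm_nonneg _) fun v _ => ?_
      rw [norm_pow]
      exact pow_le_pow_left₀ (norm_nonneg _) (hz v) _
    have hb : ‖z u‖ ^ (m u - 1) ≤ R ^ m u :=
      le_trans (pow_le_pow_left₀ (norm_nonneg _) (hz u) _) (pow_le_pow_right₀ hR (Nat.sub_le _ _))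
    have hs : ∑ v ∈ Finset.univ.erase u, m v + m u = ∑ v, m v :=
      Finset.sum_erase_add _ _ (Finset.mem_univ u)
    have hP0 : 0 ≤ R ^ (∑ v ∈ Finset.univ.erase u, m v) := pow_nonneg hR0 _
    calc (∏ v ∈ Finset.univ.erase u, ‖z v ^ m v‖) * ((m u : ℝ) * ‖z u‖ ^ (m u - 1) *
          ‖(ContinuousLinearMap.proj u : (ι → ℂ) →L[ℂ] ℂ)‖)
        ≤ R ^ (∑ v ∈ Finset.univ.erase u, m v) * ((m u : ℝ) * R ^ m u * 1) := by
          refine mul_le_mul ha ?_ (by positivity) hP0
          refine mul_le_mul ?_ hp (norm_nonneg _) (by positivity)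
          exact mul_le_mul_of_nonneg_left hb (Nat.cast_nonneg _)
      _ = (m u : ℝ) * R ^ (∑ u, m u) := by
          rw [← hs, pow_add]; ring
  refine le_trans (Finset.sum_le_sum h1) ?_
  rw [← Finset.sum_mul, mul_pow, ← Nat.cast_sum]
  refine mul_le_mul_of_nonneg_right ?_ (pow_nonneg hR0 _)
  exact_mod_cast (Nat.lt_two_pow_self (n := ∑ u, m u)).le

theorem PS_hasFDerivAt {c : (ι → ℕ) → ℂ} {f : (ι → ℂ) → ℂ} (h : PS c f) (z : ι → ℂ) :
    HasFDerivAt f (∑' m, dmono c m z) z ∧ HasSum (fun m => dmono c m z) (∑' m, dmono c m z) := by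
  have hf : f = fun z => ∑' m : ι → ℕ, c m * ∏ u, z u ^ m u := by
    funext w
    exact (h w).tsum_eq.symm
  set R : ℝ := ‖z‖ + 1 with hRdef
  have hR : 1 ≤ R := by
    rw [hRdef]; linarith [norm_nonneg z]
  have hsum := PS.summable h (R := 2 * R) (by linarith)
  have key := hasFDerivAt_tsum_of_isPreconnected (𝕜 := ℂ)
    (u := fun m : ι → ℕ => ‖c m‖ * (2 * R) ^ (∑ u, m u))
    (f := fun (m : ι → ℕ) (z : ι → ℂ) => c m * ∏ u, z u ^ m u)
    (f' := fun (m : ι → ℕ) (z : ι → ℂ) => dmono c m z)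
    (s := Metric.ball (0 : ι → ℂ) R) (x₀ := z) (x := z) hsum Metric.isOpen_ball
    (convex_ball _ _).isPreconnected
    (fun m x _ => hasFDerivAt_mono c m x)
    (fun m x hx => norm_dmono_le c m x hR fun u => by
      have h1 : ‖x‖ < R := by simpa using hx
      exact le_trans (norm_le_pi_norm x u) h1.le)
    (by simp [hRdef]) (h z).summable (by simp [hRdef])
  refine ⟨by rw [hf]; exact key, ?_⟩
  refine (Summable.of_norm_bounded hsum fun m => norm_dmono_le c m z hR fun u => ?_).hasSum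
  exact (norm_le_pi_norm z u).trans (by rw [hRdef]; linarith)

theorem dmono_single (c : (ι → ℕ) → ℂ) (m : ι → ℕ) (z : ι → ℂ) (u : ι) :
    dmono c m z (Pi.single u 1) =
      c m * ((∏ v ∈ Finset.univ.erase u, z v ^ m v) * ((m u : ℂ) * z u ^ (m u - 1))) := by
  unfold dmono
  rw [_root_.smul_apply, sum_apply, Finset.sum_eq_single u]
  · simp
  · intro v _ hv
    simp [Pi.single_eq_of_ne hv]
  · intro h
    exact absurd (Finset.mem_univ u) h

/-- the power series of a partial derivative -/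
theorem PS_fderiv {c : (ι → ℕ) → ℂ} {f : (ι → ℂ) → ℂ} (h : PS c f) (u : ι) :
    PS (fun m => ((m u : ℂ) + 1) * c (m + Pi.single u 1))
      (fun z => fderiv ℂ f z (Pi.single u 1)) := by
  intro z
  obtain ⟨h1, h2⟩ := PS_hasFDerivAt h z
  simp only
  rw [h1.fderiv]
  have h3 : HasSum (fun m => dmono c m z (Pi.single u 1)) ((∑' m, dmono c m z) (Pi.single u 1)) :=
    h2.mapL (ContinuousLinearMap.apply ℂ ℂ (Pi.single u 1 : ι → ℂ))
  have hinj : Function.Injective fun m : ι → ℕ => m + Pi.single u 1 := fun a b hab =>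
    add_right_cancel hab
  rw [← hinj.hasSum_iff] at h3
  · refine h3.congr_fun ?_ |> id
    intro m
    simp only [Function.comp]
    rw [dmono_single, ← Finset.mul_prod_erase Finset.univ (fun v => z v ^ m v) (Finset.mem_univ u)]
    have h4 : ∏ v ∈ Finset.univ.erase u, z v ^ (m + Pi.single u 1 : ι → ℕ) v =
        ∏ v ∈ Finset.univ.erase u, z v ^ m v := by
      refine Finset.prod_congr rfl fun v hv => ?_
      rw [Pi.add_apply, Pi.single_eq_of_ne (Finset.ne_of_mem_erase hv), add_zero]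
    rw [h4]
    simp only [Pi.add_apply, Pi.single_eq_same, Nat.cast_add, Nat.cast_one, Nat.add_sub_cancel]
    ring
  · intro m hm
    rw [dmono_single]
    have h5 : m u = 0 := by
      by_contra h6
      refine hm ⟨m - Pi.single u 1, ?_⟩
      funext v
      by_cases hv : v = u
      · subst hv
        simp only [Pi.add_apply, Pi.sub_apply, Pi.single_eq_same]
        omega
      · simp [Pi.single_eq_of_ne hv]
    rw [h5]
    simp

omit [DecidableEq ι] in
/-- the constant coefficient -/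
theorem PS_zero {c : (ι → ℕ) → ℂ} {f : (ι → ℂ) → ℂ} (h : PS c f) : c 0 = f 0 := by
  have h1 := h 0
  have h2 : HasSum (fun m : ι → ℕ => c m * ∏ u, (0 : ι → ℂ) u ^ m u)
      (c 0 * ∏ u, (0 : ι → ℂ) u ^ (0 : ι → ℕ) u) := by
    refine hasSum_single 0 fun m hm => ?_
    obtain ⟨u, hu⟩ : ∃ u, m u ≠ 0 := by
      by_contra h3
      push Not at h3
      exact hm (funext h3)
    rw [Finset.prod_eq_zero (Finset.mem_univ u), mul_zero]
    rw [Pi.zero_apply, zero_pow hu]
  have h3 := h2.unique h1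
  simpa using h3

/-- K_GT, the Taylor coefficients. -/
theorem taylor_alg (T : Set ((ι → ℂ) → ℂ)) (hd : ∀ f ∈ T, Differentiable ℂ f)
    (h0 : ∀ f ∈ T, IsAlgebraic ℚ (f 0))
    (hD : ∀ f ∈ T, ∀ u, (fun z => fderiv ℂ f z (Pi.single u 1)) ∈ T)
    (f : (ι → ℂ) → ℂ) (hf : f ∈ T) :
    ∃ a : (ι → ℕ) → ℂ, PS a f ∧ ∀ m, IsAlgebraic ℚ (a m) := by
  have key : ∀ k : ℕ, ∀ f ∈ T, ∀ a : (ι → ℕ) → ℂ, PS a f → ∀ m : ι → ℕ, ∑ i, m i = k →
      IsAlgebraic ℚ (a m) := by
    intro k
    induction k with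
    | zero =>
      intro f hf a ha m hm
      have h1 : m = 0 := by
        funext u
        exact (Finset.sum_eq_zero_iff.1 hm) u (Finset.mem_univ u)
      rw [h1, PS_zero ha]
      exact h0 f hf
    | succ k ih =>
      intro f hf a ha m hm
      obtain ⟨u, hu⟩ : ∃ u, m u ≠ 0 := by
        by_contra h3
        push Not at h3
        rw [Finset.sum_eq_zero fun i _ => h3 i] at hm
        omega
      have hm' : (m - Pi.single u 1 : ι → ℕ) + Pi.single u 1 = m := by
        funext v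
        by_cases hv : v = u
        · subst hv
          simp only [Pi.add_apply, Pi.sub_apply, Pi.single_eq_same]
          omega
        · simp [Pi.single_eq_of_ne hv]
      have hsum : ∑ i, (m - Pi.single u 1 : ι → ℕ) i = k := by
        have h4 : ∑ i, ((m - Pi.single u 1 : ι → ℕ) + Pi.single u 1 : ι → ℕ) i = k + 1 := by
          rw [hm', hm]
        simp only [Pi.add_apply] at h4
        rw [Finset.sum_add_distrib, Finset.sum_pi_single' u 1 Finset.univ,
          if_pos (Finset.mem_univ u)] at h4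
        omega
      have h5 := ih _ (hD f hf u) _ (PS_fderiv ha u) (m - Pi.single u 1) hsum
      rw [hm'] at h5
      have h6 : ((((m - Pi.single u 1 : ι → ℕ) u : ℕ) : ℂ) + 1) ≠ 0 := by
        exact_mod_cast Nat.succ_ne_zero ((m - Pi.single u 1 : ι → ℕ) u)
      have h7 : a m = ((((m - Pi.single u 1 : ι → ℕ) u : ℕ) : ℂ) + 1)⁻¹ *
          (((((m - Pi.single u 1 : ι → ℕ) u : ℕ) : ℂ) + 1) * a m) := by
        rw [← mul_assoc, inv_mul_cancel₀ h6, one_mul]
      rw [h7]
      refine IsAlgebraic.mul (IsAlgebraic.inv ?_) h5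
      exact (isAlgebraic_natCast _).add isAlgebraic_one
  obtain ⟨a, ha⟩ := entire_PS (hd f hf)
  exact ⟨a, ha, fun m => key _ f hf a ha m rfl⟩

end Pool.Agent.Helper32.SH
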